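import Pool.Agent.Helper51_NC.CHN

/-!
Squad NC, row FIN: the theorem.
-/

set_option autoImplicit false

namespace Pool.Agent.NCub.H81

open Pool.Agent.OM Pool.Agent.NCub Pool.Agent.NCub.H51

open Classical in
/-- FIN. -/
theorem fin (gda : GDAStmt) (chn : CHNStmt) (lin : LINStmt) (pol : POLStmt) : FINStmt := by
  intro X hfin hX P hP hdeg
  obtain ⟨Y, rfl⟩ : ∃ Y : Finset (ℝ × ℝ), X = Y := ⟨hfin.toFinset, by simp⟩
  obtain ⟨c, hc, hev⟩ := pol P hP hdeg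
  have hf : {x ∈ (Y : Set (ℝ × ℝ)) | MvPolynomial.eval ![x.1, x.2] P ≠ 0}.ncard =
      (offs c Y).card := by
    rw [← Set.ncard_coe_finset]
    congr 1
    ext x
    rw [Finset.mem_coe, mem_offs]
    show x ∈ (Y : Set (ℝ × ℝ)) ∧ MvPolynomial.eval ![x.1, x.2] P ≠ 0 ↔ _
    rw [hev x, Finset.mem_coe]
  have hgood : (good c Y).card ≤ 10 * (offs c Y).card + 12 := by
    by_contra h
    push Not at h
    obtain ⟨a, ha, h1, h2, h3⟩ := gda c Y (by omega)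
    exact chn c Y (by omega) a ha h1 h2 h3
  obtain ⟨L, hL, hcov⟩ := lin c hc
    (Y.filter (fun p => G c (hat p) = 0 ∧ ¬ NoLine c (hat p)))
    (fun p hp => (Finset.mem_filter.1 hp).2)
  have h4 := on_lines (Y : Set (ℝ × ℝ)) hfin hX 3 L hL
  have hsub : {x | Omissible (Y : Set (ℝ × ℝ)) x} ⊆
      (((good c Y : Finset (ℝ × ℝ)) : Set (ℝ × ℝ)) ∪ ((offs c Y : Finset (ℝ × ℝ)) : Set (ℝ × ℝ))) ∪
        {x | Omissible (Y : Set (ℝ × ℝ)) x ∧ ∃ i, x ∈ L i} := by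
    intro x hx
    have hx' : Omissible (Y : Set (ℝ × ℝ)) x := hx
    have hxY : x ∈ Y := Finset.mem_coe.1 hx'.1
    by_cases h5 : G c (hat x) = 0
    · by_cases h6 : NoLine c (hat x)
      · exact Or.inl (Or.inl (Finset.mem_coe.2 (mem_good.2 ⟨hxY, om_of_omissible hx', h6⟩)))
      · exact Or.inr ⟨hx', hcov x (Finset.mem_filter.2 ⟨hxY, h5, h6⟩)⟩
    · exact Or.inl (Or.inr (Finset.mem_coe.2 (mem_offs.2 ⟨hxY, h5⟩)))
  have hfin2 : ((((good c Y : Finset (ℝ × ℝ)) : Set (ℝ × ℝ)) ∪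
      ((offs c Y : Finset (ℝ × ℝ)) : Set (ℝ × ℝ))) ∪
        {x | Omissible (Y : Set (ℝ × ℝ)) x ∧ ∃ i, x ∈ L i}).Finite := by
    refine Set.Finite.union (Set.Finite.union (Finset.finite_toSet _) (Finset.finite_toSet _))
      (hfin.subset ?_)
    rintro x ⟨hx, -⟩
    exact hx.1
  have h7 := Set.ncard_le_ncard hsub hfin2
  have h8 := Set.ncard_union_le ((((good c Y : Finset (ℝ × ℝ)) : Set (ℝ × ℝ)) ∪
      ((offs c Y : Finset (ℝ × ℝ)) : Set (ℝ × ℝ))))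
        {x | Omissible (Y : Set (ℝ × ℝ)) x ∧ ∃ i, x ∈ L i}
  have h9 := Set.ncard_union_le ((good c Y : Finset (ℝ × ℝ)) : Set (ℝ × ℝ))
      ((offs c Y : Finset (ℝ × ℝ)) : Set (ℝ × ℝ))
  rw [Set.ncard_coe_finset, Set.ncard_coe_finset] at h9
  rw [hf]
  omega

end Pool.Agent.NCub.H81
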