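import Pool.Agent.Helper51_NC.CHN

/-!
Squad NC, row GDA: a good starting point.
-/

set_option autoImplicit false

namespace Pool.Agent.NCub.H81

open Pool.Agent.OM Pool.Agent.NCub Pool.Agent.NCub.H51

open Classical in
/-- GDA. -/
theorem gda (kit : KITStmt) (tan : TANStmt) (flx : FLXStmt) : GDAStmt := by
  intro c X hcard
  obtain ⟨k1, k2, k3, k4, k5⟩ := kit c X
  by_contra hc
  push Not at hc
  set A := (good c X).filter (fun a => ¬ Smooth c (hat a)) with hA
  set B := (offs c X).biUnion
    (fun z => (good c X).filter (fun a => T c (hat a) (hat a) (hat z) = 0)) with hB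
  set C := (good c X).filter (fun a => Smooth c (hat a) ∧ Flex c (hat a)) with hC
  have hcov : good c X ⊆ A ∪ B ∪ C := by
    intro a ha
    by_cases h1 : Smooth c (hat a)
    · by_cases h2 : Flex c (hat a)
      · exact Finset.mem_union_right _ (Finset.mem_filter.2 ⟨ha, h1, h2⟩)
      · obtain ⟨z, hz, hT⟩ := hc a ha h1 h2
        exact Finset.mem_union_left _ (Finset.mem_union_right _
          (Finset.mem_biUnion.2 ⟨z, hz, Finset.mem_filter.2 ⟨ha, hT⟩⟩))
    · exact Finset.mem_union_left _ (Finset.mem_union_left _ (Finset.mem_filter.2 ⟨ha, h1⟩))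
  have hA1 : A.card ≤ 1 := by
    rw [Finset.card_le_one]
    intro a ha b hb
    rw [hA, Finset.mem_filter] at ha hb
    exact k5 a b (mem_good.1 ha.1).2.2 (mem_good.1 hb.1).2.2 ha.2 hb.2
  have hB1 : B.card ≤ 8 * (offs c X).card := by
    refine Finset.card_biUnion_le.trans ?_
    rw [mul_comm, ← smul_eq_mul]
    refine Finset.sum_le_card_nsmul _ _ 8 fun z _ => ?_
    refine tan c (hat z) (hat_ne_zero z) _ fun b hb => ?_
    rw [Finset.mem_filter] at hb
    exact ⟨(mem_good.1 hb.1).2.2, hb.2⟩
  have hC1 : C.card ≤ 2 * (offs c X).card + 3 := by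
    by_cases h : ∃ a ∈ C, ∃ b ∈ C, b ≠ a ∧ Free c X a b
    · obtain ⟨a, ha, b, hb, hab, hfr⟩ := h
      have ha' := Finset.mem_filter.1 ha
      have hb' := Finset.mem_filter.1 hb
      obtain ⟨w, hw, hwa, hwb, hcol⟩ := k1 a ha'.1 b (good_ons hb'.1) hab hfr
      have h3 : C.card ≤ 3 := by
        refine k2 (hat a) (hat b) (ind2 hab.symm) C ?_ ⟨a, ha, (mem_good.1 ha'.1).2.2⟩
        intro x hx
        have hx' := Finset.mem_filter.1 hx
        refine ⟨(mem_good.1 hx'.1).2.2.1, ?_⟩
        by_contra hdet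
        have hnc : ¬ col a b x := fun hcc => hdet ((col_iff x a b).1 (col_rot (col_rot hcc)))
        exact flx c (hat a) (hat b) (hat x) (ind_of_not_col hnc) (mem_good.1 ha'.1).2.2
          (mem_good.1 hb'.1).2.2 (mem_good.1 hx'.1).2.2 hx'.2.1 ha'.2.2 hb'.2.2 hx'.2.2
          ⟨hat w, third_of hab.symm hcol hwa hwb (mem_ons.1 hw).2⟩
      omega
    · push Not at h
      rcases C.eq_empty_or_nonempty with h0 | ⟨a, ha⟩
      · rw [h0]
        simp
      · have ha' := Finset.mem_filter.1 ha
        have h4 := k4 a (mem_good.1 ha'.1).2.2.1 (C.erase a) (fun x hx => by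
          rw [Finset.mem_erase] at hx
          have hx' := (mem_good.1 (Finset.mem_filter.1 hx.2).1).2.2
          exact ⟨hx'.1, hx.1, Or.inl hx', h a ha x hx.2 hx.1⟩)
        rw [Finset.card_erase_of_mem ha] at h4
        omega
  have hcard2 := Finset.card_le_card hcov
  have h5 := Finset.card_union_le (A ∪ B) C
  have h6 := Finset.card_union_le A B
  omega

end Pool.Agent.NCub.H81
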